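import Pool.Agent.Helper353.SQ.Defs

set_option autoImplicit false

open Finset
open scoped Pointwise

namespace SQ



theorem cnt_sum (N K : ℕ) (A : Finset ℕ) (hA : ∀ a ∈ A, a < N) :
    ∑ j ∈ range K, cnt N K A j = A.card ∨ K = 0 := by
  rcases Nat.eq_zero_or_pos K with hK | hK
  · exact Or.inr hK
  · left
    unfold cnt
    refine (Finset.card_eq_sum_card_fiberwise ?_).symm
    intro a ha
    rw [Finset.mem_coe, Finset.mem_range]
    apply Nat.div_lt_of_lt_mul
    exact Nat.mul_lt_mul_of_pos_right (hA a ha) hK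

end SQ
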