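import Pool.Agent.Helper353.SQ.Defs

set_option autoImplicit false

open Finset
open scoped Pointwise

namespace SQ



theorem dev (K k : ℕ) (hK : 0 < K) (hk : 0 < k) (x : ℕ → ℕ)
    (h1 : ∑ j ∈ range K, x j = k)
    (h2 : ∑ j ∈ range K, (x j) ^ 2 ≤ k + ((k ^ 2 + k) / K + 1)) :
    ∀ j ∈ range K, (x j : ℝ) ≤ (k : ℝ) / K + Real.sqrt (3 * k) := by
  intro j hj
  have hK' : (0 : ℝ) < K := by exact_mod_cast hK
  have hK1 : (1 : ℝ) ≤ K := by exact_mod_cast hK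
  have hk1 : (1 : ℝ) ≤ k := by exact_mod_cast hk
  have e1 : ∑ j ∈ range K, (x j : ℝ) = k := by exact_mod_cast h1
  have e2 : ∑ j ∈ range K, (x j : ℝ) ^ 2 ≤ k + (((k : ℝ) ^ 2 + k) / K + 1) := by
    have h3 : ((∑ j ∈ range K, (x j) ^ 2 : ℕ) : ℝ) ≤ ((k + ((k ^ 2 + k) / K + 1) : ℕ) : ℝ) := by
      exact_mod_cast h2
    have h4 : (((k ^ 2 + k) / K : ℕ) : ℝ) ≤ ((k ^ 2 + k : ℕ) : ℝ) / (K : ℝ) := Nat.cast_div_le
    push_cast at h3 h4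
    linarith
  have e3 : ∑ j ∈ range K, ((x j : ℝ) - k / K) ^ 2 =
      ∑ j ∈ range K, (x j : ℝ) ^ 2 - (k : ℝ) ^ 2 / K := by
    have h3 : ∀ j, ((x j : ℝ) - k / K) ^ 2 =
        (x j : ℝ) ^ 2 - 2 * (k / K) * (x j : ℝ) + (k / K) ^ 2 := by
      intro j; ring
    simp only [h3]
    rw [Finset.sum_add_distrib, Finset.sum_sub_distrib, ← Finset.mul_sum, e1, Finset.sum_const,
      card_range, nsmul_eq_mul]
    field_simp
    ring
  have e4 : ((x j : ℝ) - k / K) ^ 2 ≤ ∑ j ∈ range K, ((x j : ℝ) - k / K) ^ 2 :=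
    Finset.single_le_sum (f := fun j => ((x j : ℝ) - k / K) ^ 2) (fun i _ => sq_nonneg _) hj
  have e5 : ((k : ℝ) ^ 2 + k) / K - (k : ℝ) ^ 2 / K ≤ k := by
    rw [← sub_div, div_le_iff₀ hK']
    nlinarith
  have e6 : ((x j : ℝ) - k / K) ^ 2 ≤ 3 * k := by linarith
  have e7 := Real.abs_le_sqrt e6
  have e8 := (abs_le.1 e7).2
  linarith

end SQ
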