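import Pool.Agent.Helper353.SQ.Defs

set_option autoImplicit false

open Finset
open scoped Pointwise

namespace SQ



theorem rot_lt (N : ℕ) (hN : 0 < N) (T : Finset ℕ) (v : ℕ) : ∀ a ∈ rot N T v, a < N := by
  intro a ha
  unfold rot at ha
  rw [Finset.mem_image] at ha
  obtain ⟨t, _, rfl⟩ := ha
  exact Nat.mod_lt _ hN

end SQ
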