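import Pool.Agent.Helper353.SQ.Defs

set_option autoImplicit false

open Finset
open scoped Pointwise

namespace SQ



theorem same_pairs_aux (N K i : ℕ) (hN : 0 < N) (hK : 0 < K) :
    ((range N).filter fun y => i = y * K / N).card ≤ N / K + 1 := by
  set S := (range N).filter fun y => i = y * K / N with hS
  rcases S.eq_empty_or_nonempty with h | h
  · rw [h]; simp
  · have hsub : S ⊆ Finset.Icc (S.min' h) (S.min' h + N / K) := by
      intro y hy
      have h1 : S.min' h ≤ y := Finset.min'_le S y hy
      have hm : S.min' h ∈ S := Finset.min'_mem S h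
      rw [hS, Finset.mem_filter] at hy
      have hm2 : i = S.min' h * K / N := by
        have := (Finset.mem_filter.mp (hS ▸ hm : S.min' h ∈ (range N).filter fun y => i = y * K / N)).2
        exact this
      have hy2 := hy.2
      generalize S.min' h = m at h1 hm2 ⊢
      rw [Finset.mem_Icc]
      refine ⟨h1, ?_⟩
      have h2 : i * N ≤ m * K := by
        rw [hm2]; exact Nat.div_mul_le_self _ _
      have h3 : y * K < (i + 1) * N := by
        rw [hy2]
        have := Nat.lt_div_mul_add (a := y * K) hN
        calc y * K < y * K / N * N + N := this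
          _ = (y * K / N + 1) * N := by ring
      obtain ⟨t, rfl⟩ := Nat.exists_eq_add_of_le h1
      have h4 : t * K ≤ N := by
        nlinarith
      have h5 : t ≤ N / K := (Nat.le_div_iff_mul_le hK).mpr h4
      omega
    calc S.card ≤ (Finset.Icc (S.min' h) (S.min' h + N / K)).card := Finset.card_le_card hsub
      _ = N / K + 1 := by
        rw [Nat.card_Icc]
        generalize N / K = q
        generalize S.min' h = m
        omega

theorem same_pairs (N K : ℕ) (hN : 0 < N) (hK : 0 < K) :
    (((range N) ×ˢ (range N)).filter fun x => x.1 * K / N = x.2 * K / N).card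
      ≤ N * (N / K + 1) := by
  rw [Finset.card_filter, Finset.sum_product]
  calc ∑ x ∈ range N, ∑ y ∈ range N, (if x * K / N = y * K / N then 1 else 0)
      ≤ ∑ x ∈ range N, (N / K + 1) := by
        refine Finset.sum_le_sum (fun x _ => ?_)
        rw [← Finset.card_filter]
        exact same_pairs_aux N K (x * K / N) hN hK
    _ = N * (N / K + 1) := by rw [Finset.sum_const, Finset.card_range, smul_eq_mul]

end SQ
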