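import Pool.Agent.Helper353.SQ.Defs
import Pool.Agent.Helper353.SQ.P_rot_lt
import Pool.Agent.Helper353.SQ.P_same_pairs

set_option autoImplicit false

open Finset
open scoped Pointwise

namespace SQ



theorem sum_sq_step1 (N K : ℕ) (hN : 0 < N) (hKp : 0 < K) (T : Finset ℕ) (v : ℕ) :
    ∑ j ∈ range K, (cnt N K (rot N T v) j) ^ 2 ≤
      ((T ×ˢ T).filter fun p => ((p.1 + v) % N) * K / N = ((p.2 + v) % N) * K / N).card := by
  classical
  have h1 : ∑ j ∈ range K, (cnt N K (rot N T v) j) ^ 2 =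
      ∑ j ∈ range K, ((((rot N T v) ×ˢ (rot N T v)).filter
        fun q => q.1 * K / N = q.2 * K / N).filter fun q => q.1 * K / N = j).card := by
    apply Finset.sum_congr rfl
    intro j _
    rw [pow_two, cnt, ← Finset.card_product]
    congr 1
    ext q
    simp only [mem_product, mem_filter]
    constructor
    · rintro ⟨⟨h1, h2⟩, h3, h4⟩
      exact ⟨⟨⟨h1, h3⟩, by rw [h2, h4]⟩, h2⟩
    · rintro ⟨⟨⟨h1, h3⟩, h4⟩, h2⟩
      exact ⟨⟨h1, h2⟩, h3, by rw [← h4, h2]⟩
  have hmaps : ∀ q ∈ (((rot N T v) ×ˢ (rot N T v)).filter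
        fun q => q.1 * K / N = q.2 * K / N), q.1 * K / N ∈ range K := by
    intro q hq
    simp only [mem_filter, mem_product] at hq
    rw [mem_range]
    have hlt := rot_lt N hN T v q.1 hq.1.1
    rw [Nat.div_lt_iff_lt_mul hN, mul_comm K N]
    exact Nat.mul_lt_mul_of_pos_right hlt hKp
  rw [h1, ← Finset.card_eq_sum_card_fiberwise hmaps]
  refine (Finset.card_le_card (t := ((T ×ˢ T).filter fun p =>
    ((p.1 + v) % N) * K / N = ((p.2 + v) % N) * K / N).image
      (fun p => ((p.1 + v) % N, (p.2 + v) % N))) ?_).trans Finset.card_image_le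
  rintro ⟨a, b⟩ hq
  simp only [mem_filter, mem_product, rot, mem_image] at hq
  obtain ⟨⟨⟨t, ht, hta⟩, ⟨s, hs, hsb⟩⟩, he⟩ := hq
  simp only [mem_image, mem_filter, mem_product, Prod.mk.injEq, Prod.exists]
  refine ⟨t, s, ⟨⟨ht, hs⟩, ?_⟩, hta, hsb⟩
  rw [hta, hsb]
  exact he

theorem sum_sq (N K : ℕ) (hN : 0 < N) (hK : 0 < K) (T : Finset ℕ) (hT : ∀ t ∈ T, t < N)
    (hS : SidMod N T) :
    ∑ v ∈ range N, ∑ j ∈ range K, (cnt N K (rot N T v) j) ^ 2
      ≤ N * T.card + N * (N / K + 1) := by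
  classical
  let W : ℕ → Finset (ℕ × ℕ) := fun v => (T ×ˢ T).filter fun p =>
    ((p.1 + v) % N) * K / N = ((p.2 + v) % N) * K / N ∧ p.1 ≠ p.2
  have hstep : ∀ v ∈ range N, ∑ j ∈ range K, (cnt N K (rot N T v) j) ^ 2 ≤
      T.card + (W v).card := by
    intro v _
    refine (sum_sq_step1 N K hN hK T v).trans ?_
    have hsub : ((T ×ˢ T).filter fun p =>
        ((p.1 + v) % N) * K / N = ((p.2 + v) % N) * K / N) ⊆
        (T.image fun t => (t, t)) ∪ W v := by
      rintro ⟨a, b⟩ hq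
      simp only [mem_filter, mem_product] at hq
      simp only [mem_union, mem_image, Prod.mk.injEq, W, mem_filter, mem_product, ne_eq]
      by_cases hab : a = b
      · left
        exact ⟨a, hq.1.1, rfl, hab⟩
      · right
        exact ⟨hq.1, hq.2, hab⟩
    refine (Finset.card_le_card hsub).trans ((Finset.card_union_le _ _).trans ?_)
    exact Nat.add_le_add_right Finset.card_image_le _
  refine (Finset.sum_le_sum hstep).trans ?_
  rw [Finset.sum_add_distrib, Finset.sum_const, card_range, smul_eq_mul]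
  apply Nat.add_le_add_left
  refine le_trans ?_ (same_pairs N K hN hK)
  rw [← Finset.card_sigma]
  apply Finset.card_le_card_of_injOn
    (fun x : (_ : ℕ) × (ℕ × ℕ) => ((x.2.1 + x.1) % N, (x.2.2 + x.1) % N))
  · rintro ⟨v, t, t'⟩ hx
    simp only [coe_sigma, Set.mem_sigma_iff, mem_coe, mem_sigma, mem_range, W, mem_filter,
      mem_product] at hx
    simp only [mem_coe, mem_filter, mem_product, mem_range]
    exact ⟨⟨Nat.mod_lt _ hN, Nat.mod_lt _ hN⟩, hx.2.2.1⟩
  · rintro ⟨v, t, t'⟩ hx ⟨u, s, s'⟩ hy hxy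
    simp only [coe_sigma, Set.mem_sigma_iff, mem_coe, mem_sigma, mem_range, W, mem_filter,
      mem_product] at hx hy
    simp only [Prod.mk.injEq] at hxy
    obtain ⟨h1, h2⟩ := hxy
    have h1' : t + v ≡ s + u [MOD N] := h1
    have h2' : s' + u ≡ t' + v [MOD N] := h2.symm
    have h3 : (t + s') + (u + v) ≡ (s + t') + (u + v) [MOD N] := by
      have := Nat.ModEq.add h1' h2'
      have e1 : (t + s') + (u + v) = t + v + (s' + u) := by ring
      have e2 : (s + t') + (u + v) = s + u + (t' + v) := by ring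
      rw [e1, e2]
      exact this
    have h4 : t + s' ≡ s + t' [MOD N] := Nat.ModEq.add_right_cancel' _ h3
    rcases hS t hx.2.1.1 s' hy.2.1.2 s hy.2.1.1 t' hx.2.1.2 h4 with ⟨hts, hst⟩ | ⟨htt, _⟩
    · subst hts
      subst hst
      have h5 : v ≡ u [MOD N] := Nat.ModEq.add_left_cancel' _ h1'
      have h6 : v = u := Nat.ModEq.eq_of_lt_of_lt h5 hx.1 hy.1
      subst h6
      rfl
    · exact absurd htt hx.2.2.2

end SQ
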