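import Pool.Agent.Helper353.SQ.Defs
import Pool.Agent.Helper353.SQ.P_sum_sq

set_option autoImplicit false

open Finset
open scoped Pointwise

namespace SQ



theorem exists_rot (N K : ℕ) (hN : 0 < N) (hK : 0 < K) (T : Finset ℕ) (hT : ∀ t ∈ T, t < N)
    (hS : SidMod N T) :
    ∃ v < N, ∑ j ∈ range K, (cnt N K (rot N T v) j) ^ 2 ≤ T.card + (N / K + 1) := by
  by_contra hcon
  push Not at hcon
  have h1 := sum_sq N K hN hK T hT hS
  have h2 : ∑ v ∈ range N, (T.card + (N / K + 1) + 1)
      ≤ ∑ v ∈ range N, ∑ j ∈ range K, (cnt N K (rot N T v) j) ^ 2 := by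
    apply Finset.sum_le_sum
    intro v hv
    exact hcon v (Finset.mem_range.mp hv)
  rw [Finset.sum_const, Finset.card_range, smul_eq_mul] at h2
  have h3 : N * (T.card + (N / K + 1) + 1) = N * T.card + N * (N / K + 1) + N := by ring
  omega

end SQ
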