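import Pool.Agent.Helper353.SQ.Defs

set_option autoImplicit false

open Finset
open scoped Pointwise

namespace SQ



theorem rot_card (N : ℕ) (T : Finset ℕ) (v : ℕ) (hT : ∀ t ∈ T, t < N) :
    (rot N T v).card = T.card := by
  unfold rot
  apply Finset.card_image_of_injOn
  intro t ht t' ht' h
  have h1 : t + v ≡ t' + v [MOD N] := h
  have h2 : t ≡ t' [MOD N] := Nat.ModEq.add_right_cancel' v h1
  exact Nat.ModEq.eq_of_lt_of_lt h2 (hT t ht) (hT t' ht')

end SQ
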