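import Pool.Agent.Helper353.SQ.Defs

set_option autoImplicit false

open Finset
open scoped Pointwise

namespace SQ



theorem rot_sid (N : ℕ) (T : Finset ℕ) (v : ℕ) (hS : SidMod N T) : Sid (rot N T v) := by
  intro a ha b hb c hc d hd h
  unfold rot at ha hb hc hd
  rw [Finset.mem_image] at ha hb hc hd
  obtain ⟨t1, ht1, rfl⟩ := ha
  obtain ⟨t2, ht2, rfl⟩ := hb
  obtain ⟨t3, ht3, rfl⟩ := hc
  obtain ⟨t4, ht4, rfl⟩ := hd
  have e1 : (t1 + v) % N + (t2 + v) % N ≡ (t1 + v) + (t2 + v) [MOD N] :=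
    Nat.ModEq.add (Nat.mod_modEq _ _) (Nat.mod_modEq _ _)
  have e2 : (t3 + v) % N + (t4 + v) % N ≡ (t3 + v) + (t4 + v) [MOD N] :=
    Nat.ModEq.add (Nat.mod_modEq _ _) (Nat.mod_modEq _ _)
  rw [h] at e1
  have e3 : (t1 + v) + (t2 + v) ≡ (t3 + v) + (t4 + v) [MOD N] := e1.symm.trans e2
  have e4 : (t1 + t2) + (v + v) ≡ (t3 + t4) + (v + v) [MOD N] := by
    have h1 : (t1 + t2) + (v + v) = (t1 + v) + (t2 + v) := by ring
    have h2 : (t3 + t4) + (v + v) = (t3 + v) + (t4 + v) := by ring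
    rw [h1, h2]
    exact e3
  have e5 : t1 + t2 ≡ t3 + t4 [MOD N] := Nat.ModEq.add_right_cancel' _ e4
  rcases hS t1 ht1 t2 ht2 t3 ht3 t4 ht4 e5 with ⟨h1, h2⟩ | ⟨h1, h2⟩
  · left
    rw [h1, h2]
    exact ⟨rfl, rfl⟩
  · right
    rw [h1, h2]
    exact ⟨rfl, rfl⟩

end SQ
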