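import Pool.Agent.Helper353.SQ.Defs
import Pool.Agent.Helper213.Sidon.Ruzsa

set_option autoImplicit false

open Finset
open scoped Pointwise

namespace SQ

theorem ruzsa_ax (p : ℕ) (hp : p.Prime) :
    ∃ T : Finset ℕ, T.card = p - 1 ∧ (∀ t ∈ T, t < p * (p - 1)) ∧ SidMod (p * (p - 1)) T :=
  Pool.Agent.Helper213.Sidon.ruzsa p hp

end SQ
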