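import Pool.Agent.Helper353.SQ.Defs
import Pool.Agent.Helper353.SQ.P_ruzsa_ax
import Pool.Agent.Helper353.SQ.P_rot_card
import Pool.Agent.Helper353.SQ.P_rot_lt
import Pool.Agent.Helper353.SQ.P_rot_sid
import Pool.Agent.Helper353.SQ.P_exists_rot
import Pool.Agent.Helper353.SQ.P_cnt_sum
import Pool.Agent.Helper353.SQ.P_dev

set_option autoImplicit false

open Finset
open scoped Pointwise

namespace SQ



theorem dense (K : ℕ) (hK : 0 < K) (ε : ℝ) (hε : 0 < ε) :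
    ∃ p0 : ℕ, ∀ p : ℕ, p.Prime → p0 ≤ p → ∃ A : Finset ℕ, (∀ a ∈ A, a < p * (p - 1)) ∧
      A.card = p - 1 ∧ Sid A ∧
      ∀ j, (cnt (p * (p - 1)) K A j : ℝ) ≤ (1 + ε) * ((p - 1 : ℕ) : ℝ) / K := by
  refine ⟨⌈3 * (K : ℝ) ^ 2 / ε ^ 2⌉₊ + 2, ?_⟩
  intro p hp hp0
  obtain ⟨k, hk⟩ : ∃ k, p = k + 1 := ⟨p - 1, by omega⟩
  have hk0 : 0 < k := by omega
  have hK' : (0 : ℝ) < K := by exact_mod_cast hK
  have hk' : (0 : ℝ) < k := by exact_mod_cast hk0
  have hpk : p - 1 = k := by omega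
  have hN : 0 < p * (p - 1) := by
    rw [hpk]
    exact Nat.mul_pos hp.pos hk0
  have hNk : p * (p - 1) = k ^ 2 + k := by
    rw [hpk, hk]
    ring
  obtain ⟨T, hTc, hTlt, hTS⟩ := ruzsa_ax p hp
  obtain ⟨v, -, hv⟩ := exists_rot (p * (p - 1)) K hN hK T hTlt hTS
  have hcard : (rot (p * (p - 1)) T v).card = p - 1 := by
    rw [rot_card _ _ _ hTlt, hTc]
  have hlt := rot_lt (p * (p - 1)) hN T v
  refine ⟨rot (p * (p - 1)) T v, hlt, hcard, rot_sid _ _ _ hTS, ?_⟩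
  have hsum : ∑ j ∈ range K, cnt (p * (p - 1)) K (rot (p * (p - 1)) T v) j = k := by
    rcases cnt_sum (p * (p - 1)) K _ hlt with h | h
    · rw [h, hcard, hpk]
    · omega
  have hsq : ∑ j ∈ range K, (cnt (p * (p - 1)) K (rot (p * (p - 1)) T v) j) ^ 2
      ≤ k + ((k ^ 2 + k) / K + 1) := by
    have h := hv
    rw [hTc, hpk] at h
    rw [← hNk, hpk]
    exact h
  have hdev := dev K k hK hk0 _ hsum hsq
  have hklarge : 3 * (K : ℝ) ^ 2 / ε ^ 2 ≤ k := by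
    have h1 := Nat.le_ceil (3 * (K : ℝ) ^ 2 / ε ^ 2)
    have h2 : ⌈3 * (K : ℝ) ^ 2 / ε ^ 2⌉₊ ≤ k := by omega
    have h3 : ((⌈3 * (K : ℝ) ^ 2 / ε ^ 2⌉₊ : ℕ) : ℝ) ≤ k := by exact_mod_cast h2
    linarith
  have hsqrt : Real.sqrt (3 * k) ≤ ε * k / K := by
    apply Real.sqrt_le_iff.mpr
    refine ⟨by positivity, ?_⟩
    rw [div_le_iff₀ (by positivity)] at hklarge
    rw [div_pow, le_div_iff₀ (by positivity)]
    nlinarith
  intro j
  rw [hpk]
  rcases Nat.lt_or_ge j K with hj | hj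
  · have h4 := hdev j (mem_range.mpr hj)
    rw [hpk] at h4
    calc (cnt (p * k) K (rot (p * k) T v) j : ℝ) ≤ (k : ℝ) / K + Real.sqrt (3 * k) := h4
      _ ≤ (k : ℝ) / K + ε * k / K := by linarith
      _ = (1 + ε) * (k : ℝ) / K := by ring
  · have h5 : cnt (p * k) K (rot (p * k) T v) j = 0 := by
      unfold cnt
      rw [card_eq_zero, filter_eq_empty_iff]
      intro a ha heq
      rw [hpk] at hlt
      have h6 := hlt a ha
      have h7 : a * K / (p * k) < K := by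
        apply Nat.div_lt_of_lt_mul
        exact Nat.mul_lt_mul_of_pos_right h6 hK
      omega
    rw [h5]
    simp only [Nat.cast_zero]
    positivity

end SQ
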