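import Mathlib

set_option autoImplicit false

open Finset
open scoped Pointwise

namespace SQ

/-- Sidon set of natural numbers. -/
def Sid (A : Finset ℕ) : Prop :=
  ∀ a ∈ A, ∀ b ∈ A, ∀ c ∈ A, ∀ d ∈ A, a + b = c + d → (a = c ∧ b = d) ∨ (a = d ∧ b = c)

/-- Sidon set modulo `N`. -/
def SidMod (N : ℕ) (A : Finset ℕ) : Prop :=
  ∀ a ∈ A, ∀ b ∈ A, ∀ c ∈ A, ∀ d ∈ A, a + b ≡ c + d [MOD N] →
    (a = c ∧ b = d) ∨ (a = d ∧ b = c)

/-- The translate of `T` by `v` modulo `N`. -/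
def rot (N : ℕ) (T : Finset ℕ) (v : ℕ) : Finset ℕ := T.image fun t => (t + v) % N

/-- Number of elements of `A` in the `j`-th of the `K` blocks of `[0, N)`. -/
def cnt (N K : ℕ) (A : Finset ℕ) (j : ℕ) : ℕ := (A.filter fun a => a * K / N = j).card

/-- Number of `(a1, a2, a4, a3)` in `A` with `a1 + a2 + a4 = c + a3`. -/
def Q (A : Finset ℕ) (c : ℕ) : ℕ :=
  (((A ×ˢ A) ×ˢ (A ×ˢ A)).filter fun q => q.1.1 + q.1.2 + q.2.1 = c + q.2.2).card

/-- Number of `(a1, a2, a4, a3)` in `A` with `c ≤ a1 + a2 + a4 - a3 < c + w`. -/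
def G (A : Finset ℕ) (c w : ℕ) : ℕ :=
  (((A ×ˢ A) ×ˢ (A ×ˢ A)).filter fun q =>
    c + q.2.2 ≤ q.1.1 + q.1.2 + q.2.1 ∧ q.1.1 + q.1.2 + q.2.1 < c + w + q.2.2).card

/-- Number of ordered pairs in `A` with sum less than `z`. -/
def P (A : Finset ℕ) (z : ℕ) : ℕ := ((A ×ˢ A).filter fun q => q.1 + q.2 < z).card

/-- Sums of two elements of `A + 1`. -/
def X (A : Finset ℕ) : Finset ℕ := (A ×ˢ A).image fun q => q.1 + q.2 + 2

/-- Sums of an element of `A + 1` and an element of `c + 1 - A`. -/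
def Y (A : Finset ℕ) (c : ℕ) : Finset ℕ := (A ×ˢ A).image fun q => c + 2 + q.1 - q.2

/-- Sums of two elements of `c + 1 - A`. -/
def Z (A : Finset ℕ) (c : ℕ) : Finset ℕ := (A ×ˢ A).image fun q => 2 * c + 2 - (q.1 + q.2)

/-- The set `(A + 1) ∪ (c + 1 - A)`. -/
def E (A : Finset ℕ) (c : ℕ) : Finset ℕ := (A.image fun a => a + 1) ∪ A.image fun a => c + 1 - a

/-- The largest number of integers `m ≤ n` of the form `a + b`, `a, b ∈ A` (`a = b` allowed), over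
all sets `A` of exactly `⌊√n⌋` integers in `[1, n]`. -/
def f (n : ℕ) : ℕ :=
  ((Finset.Icc 1 n).powersetCard (Nat.sqrt n)).sup fun A => ((A + A).filter (· ≤ n)).card

end SQ
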