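import Pool.Agent.Helper353.SQ.Defs

set_option autoImplicit false

open Finset
open scoped Pointwise

namespace SQ



theorem triples_in (m : ℕ) : 2 * ∑ j ∈ range m, (m - j) = m * (m + 1) := by
  induction m with
  | zero => simp
  | succ m ih =>
    rw [Finset.sum_range_succ']
    have h : ∀ j ∈ range m, (m + 1 - (j + 1)) = m - j := by
      intro j _; omega
    rw [Finset.sum_congr rfl h, mul_add, ih]
    simp only [Nat.sub_zero]
    ring

theorem triples_in' (m N : ℕ) (h : m ≤ N) : 2 * ∑ j ∈ range N, (m - j) = m * (m + 1) := by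
  rw [← triples_in m]
  congr 1
  symm
  apply Finset.sum_subset
  · intro x hx
    rw [Finset.mem_range] at *
    omega
  · intro x _ hx
    rw [Finset.mem_range] at hx
    omega

theorem triples_out (n : ℕ) :
    3 * ∑ i ∈ range n, (n - i) * ((n - i) + 1) = n * (n + 1) * (n + 2) := by
  induction n with
  | zero => simp
  | succ n ih =>
    rw [Finset.sum_range_succ']
    have h : ∀ j ∈ range n, (n + 1 - (j + 1)) * ((n + 1 - (j + 1)) + 1) = (n - j) * ((n - j) + 1) := by
      intro j _
      have : n + 1 - (j + 1) = n - j := by omega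
      rw [this]
    rw [Finset.sum_congr rfl h, mul_add, ih]
    simp only [Nat.sub_zero]
    ring

theorem triples (s : ℕ) :
    6 * (((range (s + 1)) ×ˢ ((range (s + 1)) ×ˢ (range (s + 1)))).filter fun x =>
      x.1 + x.2.1 + x.2.2 ≤ s).card ≤ (s + 1) * (s + 2) * (s + 3) := by
  have h1 : (((range (s + 1)) ×ˢ ((range (s + 1)) ×ˢ (range (s + 1)))).filter fun x =>
      x.1 + x.2.1 + x.2.2 ≤ s).card = ∑ i ∈ range (s + 1), ∑ j ∈ range (s + 1), (s + 1 - i - j) := by
    rw [Finset.card_filter, Finset.sum_product]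
    apply Finset.sum_congr rfl
    intro i _
    rw [Finset.sum_product]
    apply Finset.sum_congr rfl
    intro j _
    rw [← Finset.card_filter]
    have : (range (s + 1)).filter (fun l => i + j + l ≤ s) = range (s + 1 - i - j) := by
      ext l
      simp only [Finset.mem_filter, Finset.mem_range]
      omega
    show ((range (s + 1)).filter (fun l => i + j + l ≤ s)).card = _
    rw [this, Finset.card_range]
  rw [h1]
  have h2 : 2 * ∑ i ∈ range (s + 1), ∑ j ∈ range (s + 1), (s + 1 - i - j)
      = ∑ i ∈ range (s + 1), (s + 1 - i) * ((s + 1 - i) + 1) := by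
    rw [Finset.mul_sum]
    apply Finset.sum_congr rfl
    intro i _
    exact triples_in' _ _ (by omega)
  have h3 := triples_out (s + 1)
  rw [← h2] at h3
  apply le_of_eq
  have h4 : 6 * ∑ i ∈ range (s + 1), ∑ j ∈ range (s + 1), (s + 1 - i - j)
     = 3 * (2 * ∑ i ∈ range (s + 1), ∑ j ∈ range (s + 1), (s + 1 - i - j)) := by ring
  rw [h4, h3]

end SQ
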