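import Pool.Agent.Helper353.SQ.Defs
import Pool.Agent.Helper353.SQ.P_triples

set_option autoImplicit false

open Finset
open scoped Pointwise

namespace SQ



theorem quad_blocks (L V : ℕ) (hL : 0 < L) :
    6 * ((((range (6 * L)) ×ˢ (range (6 * L))) ×ˢ ((range (6 * L)) ×ˢ (range (6 * L)))).filter
      fun i => 13 * L + i.2.2 ≤ i.1.1 + i.1.2 + i.2.1 + 2 ∧
        i.1.1 + i.1.2 + i.2.1 < 13 * L + V + i.2.2 + 2).card ≤ (V + 4) * (5 * L + 2) ^ 3 := by
  classical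
  set S := ((((range (6 * L)) ×ˢ (range (6 * L))) ×ˢ ((range (6 * L)) ×ˢ (range (6 * L)))).filter
      fun i => 13 * L + i.2.2 ≤ i.1.1 + i.1.2 + i.2.1 + 2 ∧
        i.1.1 + i.1.2 + i.2.1 < 13 * L + V + i.2.2 + 2) with hS
  set g : (ℕ × ℕ) × (ℕ × ℕ) → ℕ × ℕ × ℕ :=
    fun i => (6 * L - 1 - i.1.1, 6 * L - 1 - i.1.2, 6 * L - 1 - i.2.1) with hg
  have h1 : S.card ≤ (V + 4) * (S.image g).card := by
    apply Finset.card_le_mul_card_image
    rintro ⟨x, y, z⟩ hxyz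
    have hsub : (S.filter fun i => g i = (x, y, z)) ⊆
        (Finset.range (V + 4)).image (fun k =>
          (((6 * L - 1 - x, 6 * L - 1 - y), (6 * L - 1 - z,
            ((6 * L - 1 - x) + (6 * L - 1 - y) + (6 * L - 1 - z) + 2 - 13 * L) - k)) :
              (ℕ × ℕ) × (ℕ × ℕ))) := by
      rintro ⟨⟨a, b⟩, ⟨c, d⟩⟩ hi
      simp only [hS, hg, Finset.mem_filter, Finset.mem_product, Finset.mem_range,
        Prod.mk.injEq] at hi
      obtain ⟨⟨⟨⟨ha, hb⟩, hc, hd⟩, h2, h3⟩, hx, hy, hz⟩ := hi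
      rw [Finset.mem_image]
      have ea : 6 * L - 1 - x = a := by omega
      have eb : 6 * L - 1 - y = b := by omega
      have ec : 6 * L - 1 - z = c := by omega
      rw [ea, eb, ec]
      refine ⟨a + b + c + 2 - 13 * L - d, ?_, ?_⟩
      · rw [Finset.mem_range]; omega
      · simp only [Prod.mk.injEq, true_and]
        omega
    calc _ ≤ _ := Finset.card_le_card hsub
      _ ≤ _ := Finset.card_image_le
      _ = V + 4 := Finset.card_range _
  have h2 : (S.image g) ⊆ (((range (5 * L - 1 + 1)) ×ˢ ((range (5 * L - 1 + 1)) ×ˢ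
      (range (5 * L - 1 + 1)))).filter fun x => x.1 + x.2.1 + x.2.2 ≤ 5 * L - 1) := by
    intro w hw
    rw [Finset.mem_image] at hw
    obtain ⟨⟨⟨a, b⟩, ⟨c, d⟩⟩, hi, rfl⟩ := hw
    simp only [hS, Finset.mem_filter, Finset.mem_product, Finset.mem_range] at hi
    obtain ⟨⟨⟨ha, hb⟩, hc, hd⟩, h2, h3⟩ := hi
    simp only [hg, Finset.mem_filter, Finset.mem_product, Finset.mem_range]
    omega
  have h3 := triples (5 * L - 1)
  have h4 := Finset.card_le_card h2
  have h5 : (5 * L - 1 + 1) * (5 * L - 1 + 2) * (5 * L - 1 + 3) ≤ (5 * L + 2) ^ 3 := by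
    have e1 : 5 * L - 1 + 1 ≤ 5 * L + 2 := by omega
    have e2 : 5 * L - 1 + 2 ≤ 5 * L + 2 := by omega
    have e3 : 5 * L - 1 + 3 ≤ 5 * L + 2 := by omega
    calc _ ≤ (5 * L + 2) * (5 * L + 2) * (5 * L + 2) :=
          Nat.mul_le_mul (Nat.mul_le_mul e1 e2) e3
      _ = (5 * L + 2) ^ 3 := by ring
  calc 6 * S.card ≤ 6 * ((V + 4) * (S.image g).card) := Nat.mul_le_mul_left _ h1
    _ = (V + 4) * (6 * (S.image g).card) := by ring
    _ ≤ (V + 4) * (5 * L + 2) ^ 3 := by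
        apply Nat.mul_le_mul_left
        calc _ ≤ _ := Nat.mul_le_mul_left 6 h4
          _ ≤ _ := h3
          _ ≤ _ := h5

end SQ
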