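import Pool.Agent.Helper353.SQ.Defs
import Pool.Agent.Helper353.SQ.P_quad_blocks

set_option autoImplicit false

open Finset
open scoped Pointwise

namespace SQ



theorem G_le (N L V c w : ℕ) (hN : 0 < N) (hL : 0 < L) (A : Finset ℕ) (hA : ∀ a ∈ A, a < N)
    (B : ℝ) (hB : ∀ j, (cnt N (6 * L) A j : ℝ) ≤ B)
    (hc1 : 13 * N ≤ 6 * c) (hc2 : 6 * c ≤ 13 * N + 6) (hw : 6 * L * w ≤ V * N)
    (hLN : 6 * L ≤ N) :
    (G A c w : ℝ) ≤ ((V : ℝ) + 4) * (5 * L + 2) ^ 3 / 6 * B ^ 4 := by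
  classical
  have hB0 : 0 ≤ B := le_trans (Nat.cast_nonneg _) (hB 0)
  obtain ⟨idx, hidx⟩ : ∃ idx : ℕ → ℕ, idx = fun a => a * (6 * L) / N := ⟨_, rfl⟩
  have h1 : ∀ a, idx a * N ≤ a * (6 * L) := by
    intro a; rw [hidx]; exact Nat.div_mul_le_self _ _
  have h2 : ∀ a, a * (6 * L) < (idx a + 1) * N := by
    intro a; rw [hidx]
    have := Nat.lt_div_mul_add (a := a * (6 * L)) hN
    simp only
    nlinarith
  have h3 : ∀ a ∈ A, idx a < 6 * L := by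
    intro a ha
    rw [hidx]
    have haN := hA a ha
    show a * (6 * L) / N < 6 * L
    rw [Nat.div_lt_iff_lt_mul hN]
    have : 0 < 6 * L := by omega
    nlinarith
  obtain ⟨S, hS⟩ : ∃ S : Finset ((ℕ × ℕ) × (ℕ × ℕ)), S =
      ((((range (6 * L)) ×ˢ (range (6 * L))) ×ˢ ((range (6 * L)) ×ˢ (range (6 * L)))).filter
      fun i => 13 * L + i.2.2 ≤ i.1.1 + i.1.2 + i.2.1 + 2 ∧
        i.1.1 + i.1.2 + i.2.1 < 13 * L + V + i.2.2 + 2) := ⟨_, rfl⟩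
  have hScard : (S.card : ℝ) ≤ ((V : ℝ) + 4) * (5 * L + 2) ^ 3 / 6 := by
    have := quad_blocks L V hL
    rw [← hS] at this
    have h4 : ((6 * S.card : ℕ) : ℝ) ≤ (((V + 4) * (5 * L + 2) ^ 3 : ℕ) : ℝ) := by exact_mod_cast this
    push_cast at h4
    linarith
  obtain ⟨T, hT⟩ : ∃ T : Finset ((ℕ × ℕ) × (ℕ × ℕ)), T =
      (((A ×ˢ A) ×ˢ (A ×ˢ A)).filter fun q =>
    c + q.2.2 ≤ q.1.1 + q.1.2 + q.2.1 ∧ q.1.1 + q.1.2 + q.2.1 < c + w + q.2.2) := ⟨_, rfl⟩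
  have hG : G A c w = T.card := by rw [hT]; rfl
  have hmap : ∀ q ∈ T, ((idx q.1.1, idx q.1.2), (idx q.2.1, idx q.2.2)) ∈ S := by
    rintro ⟨⟨a1, a2⟩, ⟨a4, a3⟩⟩ hq
    rw [hT, Finset.mem_filter] at hq
    simp only [Finset.mem_product] at hq
    obtain ⟨⟨⟨ha1, ha2⟩, ⟨ha4, ha3⟩⟩, hl, hu⟩ := hq
    rw [hS, Finset.mem_filter]
    simp only [Finset.mem_product, Finset.mem_range]
    refine ⟨⟨⟨h3 _ ha1, h3 _ ha2⟩, ⟨h3 _ ha4, h3 _ ha3⟩⟩, ?_, ?_⟩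
    · have e1 := h2 a1
      have e2 := h2 a2
      have e4 := h2 a4
      have e3 := h1 a3
      have e5 : (c + a3) * (6 * L) ≤ (a1 + a2 + a4) * (6 * L) := Nat.mul_le_mul_right _ hl
      have e6 : 13 * N * L ≤ 6 * c * L := Nat.mul_le_mul_right _ hc1
      have e7 : (13 * L + idx a3) * N < (idx a1 + idx a2 + idx a4 + 3) * N := by nlinarith
      have e8 := Nat.lt_of_mul_lt_mul_right e7
      omega
    · have e1 := h1 a1
      have e2 := h1 a2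
      have e4 := h1 a4
      have e3 := h2 a3
      have e5 : (a1 + a2 + a4) * (6 * L) ≤ (c + w + a3) * (6 * L) := Nat.mul_le_mul_right _ hu.le
      have e6 : 6 * c * L ≤ (13 * N + 6) * L := Nat.mul_le_mul_right _ hc2
      have e7 : (idx a1 + idx a2 + idx a4) * N < (13 * L + V + idx a3 + 2) * N := by nlinarith
      exact Nat.lt_of_mul_lt_mul_right e7
  have hfib : T.card = ∑ i ∈ S, (T.filter (fun q => ((idx q.1.1, idx q.1.2), (idx q.2.1, idx q.2.2)) = i)).card :=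
    Finset.card_eq_sum_card_fiberwise (f := fun q : (ℕ × ℕ) × (ℕ × ℕ) =>
      ((idx q.1.1, idx q.1.2), (idx q.2.1, idx q.2.2))) hmap
  have hone : ∀ i ∈ S, ((T.filter (fun q => ((idx q.1.1, idx q.1.2), (idx q.2.1, idx q.2.2)) = i)).card : ℝ)
      ≤ B ^ 4 := by
    rintro ⟨⟨i1, i2⟩, ⟨i4, i3⟩⟩ -
    have hsub : T.filter (fun q => ((idx q.1.1, idx q.1.2), (idx q.2.1, idx q.2.2)) = ((i1, i2), (i4, i3))) ⊆
        ((A.filter fun a => a * (6 * L) / N = i1) ×ˢ (A.filter fun a => a * (6 * L) / N = i2)) ×ˢ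
        ((A.filter fun a => a * (6 * L) / N = i4) ×ˢ (A.filter fun a => a * (6 * L) / N = i3)) := by
      rintro ⟨⟨a1, a2⟩, ⟨a4, a3⟩⟩ hq
      rw [Finset.mem_filter, hT, Finset.mem_filter] at hq
      simp only [Finset.mem_product, Prod.mk.injEq, hidx] at hq
      obtain ⟨⟨⟨⟨ha1, ha2⟩, ⟨ha4, ha3⟩⟩, -⟩, ⟨g1, g2⟩, g4, g3⟩ := hq
      simp only [Finset.mem_product, Finset.mem_filter]
      exact ⟨⟨⟨ha1, g1⟩, ⟨ha2, g2⟩⟩, ⟨⟨ha4, g4⟩, ⟨ha3, g3⟩⟩⟩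
    have hc := Finset.card_le_card hsub
    simp only [Finset.card_product] at hc
    have hc' : ((T.filter (fun q => ((idx q.1.1, idx q.1.2), (idx q.2.1, idx q.2.2)) = ((i1, i2), (i4, i3)))).card : ℝ)
        ≤ ((cnt N (6 * L) A i1 : ℝ) * (cnt N (6 * L) A i2 : ℝ)) *
          ((cnt N (6 * L) A i4 : ℝ) * (cnt N (6 * L) A i3 : ℝ)) := by
      unfold cnt
      exact_mod_cast hc
    refine hc'.trans ?_
    have k1 : (cnt N (6 * L) A i1 : ℝ) * (cnt N (6 * L) A i2 : ℝ) ≤ B * B :=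
      mul_le_mul (hB _) (hB _) (Nat.cast_nonneg _) hB0
    have k2 : (cnt N (6 * L) A i4 : ℝ) * (cnt N (6 * L) A i3 : ℝ) ≤ B * B :=
      mul_le_mul (hB _) (hB _) (Nat.cast_nonneg _) hB0
    calc _ ≤ (B * B) * (B * B) := mul_le_mul k1 k2 (by positivity) (by positivity)
      _ = B ^ 4 := by ring
  rw [hG, hfib]
  push_cast
  calc _ ≤ ∑ i ∈ S, B ^ 4 := Finset.sum_le_sum hone
    _ = (S.card : ℝ) * B ^ 4 := by rw [Finset.sum_const, nsmul_eq_mul]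
    _ ≤ _ := mul_le_mul_of_nonneg_right hScard (by positivity)

end SQ
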