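import Pool.Agent.Helper353.SQ.Defs

set_option autoImplicit false

open Finset
open scoped Pointwise

namespace SQ



theorem pair_blocks (m : ℕ) :
    2 * (((range m) ×ˢ (range m)).filter fun i => i.1 + i.2 < m).card ≤ m * (m + 1) := by
  induction m with
  | zero => simp
  | succ m ih =>
    have hsub : ((range (m + 1)) ×ˢ (range (m + 1))).filter (fun i => i.1 + i.2 < m + 1) ⊆
        (((range m) ×ˢ (range m)).filter fun i => i.1 + i.2 < m) ∪
          (range (m + 1)).image (fun i => (i, m - i)) := by
      rintro ⟨i, j⟩ h
      simp only [mem_filter, mem_product, mem_range, mem_union, mem_image, Prod.mk.injEq] at h ⊢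
      by_cases h2 : i + j < m
      · left; omega
      · right; exact ⟨i, by omega, rfl, by omega⟩
    have h1 := card_le_card hsub
    have h2 := card_union_le (((range m) ×ˢ (range m)).filter fun i => i.1 + i.2 < m)
      ((range (m + 1)).image (fun i => (i, m - i)))
    have h3 : ((range (m + 1)).image (fun i => (i, m - i))).card ≤ m + 1 :=
      card_image_le.trans (by simp)
    nlinarith

end SQ
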