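import Pool.Agent.Helper353.SQ.Defs
import Pool.Agent.Helper353.SQ.P_pair_blocks

set_option autoImplicit false

open Finset
open scoped Pointwise

namespace SQ



theorem P_le (N K m z : ℕ) (hN : 0 < N) (hK : 0 < K) (A : Finset ℕ)
    (B : ℝ) (hB : ∀ j, (cnt N K A j : ℝ) ≤ B) (hz : K * z ≤ m * N) :
    (P A z : ℝ) ≤ (m : ℝ) * (m + 1) / 2 * B ^ 2 := by
  have hB0 : 0 ≤ B := (Nat.cast_nonneg _).trans (hB 0)
  set T := (((range m) ×ˢ (range m)).filter fun i => i.1 + i.2 < m) with hT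
  have hmaps : ∀ q ∈ (A ×ˢ A).filter (fun q => q.1 + q.2 < z),
      (q.1 * K / N, q.2 * K / N) ∈ T := by
    intro q hq
    rw [mem_filter] at hq
    have h1 : q.1 * K / N * N ≤ q.1 * K := Nat.div_mul_le_self _ _
    have h2 : q.2 * K / N * N ≤ q.2 * K := Nat.div_mul_le_self _ _
    have h3 : (q.1 + q.2) * K < z * K := Nat.mul_lt_mul_of_pos_right hq.2 hK
    have h4 : (q.1 * K / N + q.2 * K / N) * N < m * N := by
      calc (q.1 * K / N + q.2 * K / N) * N = q.1 * K / N * N + q.2 * K / N * N := by ring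
        _ ≤ q.1 * K + q.2 * K := Nat.add_le_add h1 h2
        _ = (q.1 + q.2) * K := by ring
        _ < z * K := h3
        _ = K * z := by ring
        _ ≤ m * N := hz
    have h5 : q.1 * K / N + q.2 * K / N < m := Nat.lt_of_mul_lt_mul_right h4
    rw [hT, mem_filter, mem_product, mem_range, mem_range]
    refine ⟨⟨?_, ?_⟩, ?_⟩
    · exact lt_of_le_of_lt (Nat.le_add_right _ _) h5
    · exact lt_of_le_of_lt (Nat.le_add_left _ _) h5
    · exact h5
  have hfib := card_eq_sum_card_fiberwise (f := fun q : ℕ × ℕ => (q.1 * K / N, q.2 * K / N))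
    (s := (A ×ˢ A).filter (fun q => q.1 + q.2 < z)) (t := T) (fun q hq => hmaps q hq)
  have hle : ∀ i ∈ T, ((((A ×ˢ A).filter (fun q => q.1 + q.2 < z)).filter
      (fun q => (q.1 * K / N, q.2 * K / N) = i)).card : ℝ) ≤ B ^ 2 := by
    intro i _
    have h1 : (((A ×ˢ A).filter (fun q => q.1 + q.2 < z)).filter
        (fun q => (q.1 * K / N, q.2 * K / N) = i)) ⊆
        (A.filter fun a => a * K / N = i.1) ×ˢ (A.filter fun a => a * K / N = i.2) := by
      intro q hq
      rw [mem_filter, mem_filter, mem_product] at hq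
      rw [mem_product, mem_filter, mem_filter]
      obtain ⟨⟨⟨h1, h2⟩, _⟩, h3⟩ := hq
      have h4 : q.1 * K / N = i.1 := congrArg Prod.fst h3
      have h5 : q.2 * K / N = i.2 := congrArg Prod.snd h3
      exact ⟨⟨h1, h4⟩, ⟨h2, h5⟩⟩
    have h2 := card_le_card h1
    rw [card_product] at h2
    have h3 : (((((A ×ˢ A).filter (fun q => q.1 + q.2 < z)).filter
        (fun q => (q.1 * K / N, q.2 * K / N) = i)).card : ℕ) : ℝ) ≤
        (cnt N K A i.1 : ℝ) * (cnt N K A i.2 : ℝ) := by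
      exact_mod_cast h2
    refine h3.trans ?_
    rw [sq]
    exact mul_le_mul (hB _) (hB _) (Nat.cast_nonneg _) hB0
  have hPc : (P A z : ℝ) ≤ (T.card : ℝ) * B ^ 2 := by
    have : (P A z : ℝ) = ∑ i ∈ T, ((((A ×ˢ A).filter (fun q => q.1 + q.2 < z)).filter
      (fun q => (q.1 * K / N, q.2 * K / N) = i)).card : ℝ) := by
      unfold P
      rw [hfib]
      push_cast
      rfl
    rw [this]
    refine (sum_le_sum hle).trans ?_
    rw [sum_const, nsmul_eq_mul]
  have hTc : (T.card : ℝ) ≤ (m : ℝ) * (m + 1) / 2 := by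
    have := pair_blocks m
    have h2 : ((2 * T.card : ℕ) : ℝ) ≤ ((m * (m + 1) : ℕ) : ℝ) := by exact_mod_cast this
    push_cast at h2
    linarith
  exact hPc.trans (mul_le_mul_of_nonneg_right hTc (sq_nonneg B))

end SQ
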