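import Pool.Agent.Helper353.SQ.Defs

set_option autoImplicit false

open Finset
open scoped Pointwise

namespace SQ



theorem avg (A : Finset ℕ) (c w : ℕ) (hw : 0 < w) :
    ∃ c' : ℕ, c ≤ c' ∧ c' < c + w ∧ w * Q A c' ≤ G A c w := by
  have hsum : ∑ c' ∈ Finset.Ico c (c + w), Q A c' ≤ G A c w := by
    unfold Q G
    rw [← Finset.card_biUnion]
    · apply Finset.card_le_card
      intro q hq
      simp only [Finset.mem_biUnion, Finset.mem_Ico, Finset.mem_filter] at hq ⊢
      obtain ⟨c', ⟨h1, h2⟩, h3, h4⟩ := hq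
      exact ⟨h3, by omega, by omega⟩
    · intro i _ j _ hij
      rw [Function.onFun, Finset.disjoint_left]
      intro q hq hq'
      simp only [Finset.mem_filter] at hq hq'
      apply hij
      omega
  by_contra hcon
  push Not at hcon
  have h1 : ∀ c' ∈ Finset.Ico c (c + w), G A c w + 1 ≤ w * Q A c' := by
    intro c' hc'
    rw [Finset.mem_Ico] at hc'
    exact hcon c' hc'.1 hc'.2
  have h2 := Finset.sum_le_sum h1
  rw [Finset.sum_const, Nat.card_Ico, smul_eq_mul, ← Finset.mul_sum, Nat.add_sub_cancel_left] at h2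
  have h3 := Nat.mul_le_mul_left w hsum
  have h4 := h2.trans h3
  rw [Nat.mul_add, Nat.mul_one] at h4
  omega

end SQ
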