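import Pool.Agent.Helper353.SQ.Defs

set_option autoImplicit false

open Finset
open scoped Pointwise

namespace SQ



theorem f_ge (n : ℕ) (S : Finset ℕ) (hS : S ⊆ Finset.Icc 1 n) (hc : S.card ≤ Nat.sqrt n) :
    ((S + S).filter (· ≤ n)).card ≤ f n := by
  obtain ⟨U, hSU, hU, hUc⟩ := Finset.exists_subsuperset_card_eq hS hc
    (by rw [Nat.card_Icc]; simpa using Nat.sqrt_le_self n)
  have h1 : (S + S).filter (· ≤ n) ⊆ (U + U).filter (· ≤ n) :=
    Finset.filter_subset_filter _ (Finset.add_subset_add hSU hSU)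
  refine (Finset.card_le_card h1).trans ?_
  unfold f
  exact Finset.le_sup (f := fun A : Finset ℕ => ((A + A).filter (· ≤ n)).card)
    (Finset.mem_powersetCard.2 ⟨hU, hUc⟩)

end SQ
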