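import Pool.Agent.Helper353.SQ.Defs

set_option autoImplicit false

open Finset
open scoped Pointwise

namespace SQ



theorem XY_le (A : Finset ℕ) (hA : Sid A) (N c : ℕ) (hN : ∀ a ∈ A, a < N) (hc : N ≤ c) :
    2 * ((X A) ∩ (Y A c)).card ≤ Q A c + A.card := by
  classical
  obtain ⟨QS, hQS⟩ : ∃ QS, QS = ((A ×ˢ A) ×ˢ (A ×ˢ A)).filter
    (fun q => q.1.1 + q.1.2 + q.2.1 = c + q.2.2) := ⟨_, rfl⟩
  obtain ⟨S, hS⟩ : ∃ S, S = (X A) ∩ (Y A c) := ⟨_, rfl⟩
  obtain ⟨D, hD⟩ : ∃ D : Finset ℕ, D = A.image (fun a => 2 * a + 2) := ⟨_, rfl⟩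
  obtain ⟨T, hT⟩ : ∃ T, T = QS.filter (fun q => q.1.1 + q.1.2 + 2 ∈ S) := ⟨_, rfl⟩
  have hQ : Q A c = QS.card := by rw [hQS]; rfl
  have h1 : T.card = ∑ m ∈ S, (T.filter (fun q => q.1.1 + q.1.2 + 2 = m)).card := by
    apply Finset.card_eq_sum_card_fiberwise
    intro q hq
    rw [Finset.mem_coe, hT, Finset.mem_filter] at hq
    exact Finset.mem_coe.mpr hq.2
  have h2 : ∀ m ∈ S, 2 ≤ (T.filter (fun q => q.1.1 + q.1.2 + 2 = m)).card + (if m ∈ D then 1 else 0) := by
    intro m hm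
    have hm' := hm
    rw [hS, Finset.mem_inter] at hm
    obtain ⟨hX, hY⟩ := hm
    unfold X at hX
    unfold Y at hY
    rw [Finset.mem_image] at hX hY
    obtain ⟨⟨a1, a2⟩, ha, hma⟩ := hX
    obtain ⟨⟨b1, b2⟩, hb, hmb⟩ := hY
    rw [Finset.mem_product] at ha hb
    simp only at ha hb hma hmb
    have hb2 := hN b2 hb.2
    have heq : a1 + a2 + b2 = c + b1 := by omega
    have hmem : ∀ x y : ℕ, x ∈ A → y ∈ A → x + y = a1 + a2 →
        (((x, y), (b2, b1)) : (ℕ × ℕ) × (ℕ × ℕ)) ∈ T.filter (fun q => q.1.1 + q.1.2 + 2 = m) := by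
      intro x y hx hy hxy
      rw [Finset.mem_filter, hT, Finset.mem_filter, hQS, Finset.mem_filter, Finset.mem_product,
        Finset.mem_product, Finset.mem_product]
      refine ⟨⟨⟨⟨⟨hx, hy⟩, hb.2, hb.1⟩, ?_⟩, ?_⟩, ?_⟩
      · show x + y + b2 = c + b1
        omega
      · show x + y + 2 ∈ S
        rw [hxy, hma]
        exact hm'
      · show x + y + 2 = m
        rw [hxy, hma]
    have m1 := hmem a1 a2 ha.1 ha.2 rfl
    have m2 := hmem a2 a1 ha.2 ha.1 (add_comm _ _)
    by_cases hmD : m ∈ D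
    · rw [if_pos hmD]
      have := Finset.card_pos.mpr ⟨_, m1⟩
      omega
    · rw [if_neg hmD, add_zero]
      have hne : a1 ≠ a2 := by
        rintro rfl
        apply hmD
        rw [hD, Finset.mem_image]
        exact ⟨a1, ha.1, by omega⟩
      have hne2 : (((a1, a2), (b2, b1)) : (ℕ × ℕ) × (ℕ × ℕ)) ≠ ((a2, a1), (b2, b1)) := by
        intro h
        rw [Prod.mk.injEq, Prod.mk.injEq] at h
        exact hne h.1.1
      calc 2 = ({((a1, a2), (b2, b1)), ((a2, a1), (b2, b1))} : Finset ((ℕ × ℕ) × (ℕ × ℕ))).card :=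
            (Finset.card_pair hne2).symm
        _ ≤ _ := by
            apply Finset.card_le_card
            intro q hq
            rw [Finset.mem_insert, Finset.mem_singleton] at hq
            rcases hq with rfl | rfl
            · exact m1
            · exact m2
  have h3 : T.card ≤ QS.card := by
    rw [hT]
    exact Finset.card_filter_le _ _
  have h4 : ∑ m ∈ S, (if m ∈ D then 1 else 0) ≤ A.card := by
    rw [← Finset.card_filter]
    calc (S.filter (· ∈ D)).card ≤ D.card := by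
          apply Finset.card_le_card
          intro m hm
          exact (Finset.mem_filter.mp hm).2
      _ ≤ A.card := by
          rw [hD]
          exact Finset.card_image_le
  rw [← hS, hQ]
  calc 2 * S.card = ∑ m ∈ S, 2 := by rw [Finset.sum_const, smul_eq_mul, mul_comm]
    _ ≤ ∑ m ∈ S, ((T.filter (fun q => q.1.1 + q.1.2 + 2 = m)).card + (if m ∈ D then 1 else 0)) :=
        Finset.sum_le_sum h2
    _ = T.card + ∑ m ∈ S, (if m ∈ D then 1 else 0) := by rw [Finset.sum_add_distrib, ← h1]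
    _ ≤ QS.card + A.card := add_le_add h3 h4

end SQ
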