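import Pool.Agent.Helper353.SQ.Defs

set_option autoImplicit false

open Finset
open scoped Pointwise

namespace SQ



theorem XZ_disj (A : Finset ℕ) (N c : ℕ) (hN : ∀ a ∈ A, a < N) (hc : 2 * N ≤ c) :
    Disjoint (X A) (Z A c) := by
  rw [Finset.disjoint_left]
  intro m hX hZ
  unfold X at hX
  unfold Z at hZ
  obtain ⟨⟨a, b⟩, hab, h1⟩ := Finset.mem_image.1 hX
  obtain ⟨⟨a', b'⟩, hab', h2⟩ := Finset.mem_image.1 hZ
  obtain ⟨ha, hb⟩ := Finset.mem_product.1 hab
  obtain ⟨ha', hb'⟩ := Finset.mem_product.1 hab'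
  have h3 := hN a ha
  have h4 := hN b hb
  have h5 := hN a' ha'
  have h6 := hN b' hb'
  simp only at h1 h2
  omega

end SQ
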