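import Pool.Agent.Helper353.SQ.Defs

set_option autoImplicit false

open Finset
open scoped Pointwise

namespace SQ



theorem X_card (A : Finset ℕ) (hA : Sid A) : A.card * (A.card + 1) ≤ 2 * (X A).card := by
  let F : Sym2 ℕ → ℕ := Sym2.lift ⟨fun a b => a + b + 2, fun a b => by simp only [add_comm]⟩
  have h1 : A.sym2.card ≤ (X A).card := by
    apply Finset.card_le_card_of_injOn F
    · intro p hp
      induction p using Sym2.ind with
      | _ a b =>
        have h : a ∈ A ∧ b ∈ A := Finset.mk_mem_sym2_iff.1 hp
        have : F s(a, b) = a + b + 2 := rfl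
        rw [this]
        exact Finset.mem_coe.2 (Finset.mem_image.2 ⟨(a, b), Finset.mem_product.2 h, rfl⟩)
    · intro p hp q hq hpq
      induction p using Sym2.ind with
      | _ a b =>
        induction q using Sym2.ind with
        | _ c d =>
          have h : a ∈ A ∧ b ∈ A := Finset.mk_mem_sym2_iff.1 hp
          have h' : c ∈ A ∧ d ∈ A := Finset.mk_mem_sym2_iff.1 hq
          have e : a + b + 2 = c + d + 2 := hpq
          rcases hA a h.1 b h.2 c h'.1 d h'.2 (by omega) with ⟨h1, h2⟩ | ⟨h1, h2⟩
          · rw [h1, h2]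
          · rw [h1, h2, Sym2.eq_swap]
  rw [Finset.card_sym2] at h1
  have h2 : (A.card + 1).choose 2 * 2 = A.card * (A.card + 1) := by
    rw [Nat.choose_two_right,
      Nat.div_mul_cancel (Nat.even_mul_pred_self (A.card + 1)).two_dvd, Nat.add_sub_cancel, mul_comm]
  omega

end SQ
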