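import Pool.Agent.Helper353.SQ.Defs

set_option autoImplicit false

open Finset
open scoped Pointwise

namespace SQ



theorem YZ_le (A : Finset ℕ) (N c : ℕ) (hN : ∀ a ∈ A, a < N) (hc : N ≤ c) :
    ((Y A c) ∩ (Z A c)).card ≤ ((X A) ∩ (Y A c)).card := by
  apply Finset.card_le_card_of_injOn (fun m => 2 * c + 4 - m)
  · intro m hm
    rw [Finset.mem_coe, Finset.mem_inter] at hm
    obtain ⟨h1, h2⟩ := hm
    unfold Y at h1
    unfold Z at h2
    rw [Finset.mem_image] at h1 h2
    obtain ⟨⟨a, b⟩, hab, h1⟩ := h1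
    obtain ⟨⟨d, e⟩, hde, h2⟩ := h2
    rw [Finset.mem_product] at hab hde
    have ha := hN _ hab.1
    have hb := hN _ hab.2
    have hd := hN _ hde.1
    have he := hN _ hde.2
    simp only at h1 h2 ha hb hd he
    rw [Finset.mem_coe, Finset.mem_inter]
    constructor
    · unfold X
      rw [Finset.mem_image]
      refine ⟨(d, e), Finset.mem_product.2 hde, ?_⟩
      simp only
      omega
    · unfold Y
      rw [Finset.mem_image]
      refine ⟨(b, a), Finset.mem_product.2 ⟨hab.2, hab.1⟩, ?_⟩
      simp only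
      omega
  · intro m hm m' hm' h
    rw [Finset.mem_coe, Finset.mem_inter] at hm hm'
    have h2 := hm.2
    have h3 := hm'.2
    unfold Z at h2 h3
    rw [Finset.mem_image] at h2 h3
    obtain ⟨q, _, h2⟩ := h2
    obtain ⟨q', _, h3⟩ := h3
    simp only at h
    omega

end SQ
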