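import Pool.Agent.Helper353.SQ.Defs

set_option autoImplicit false

open Finset
open scoped Pointwise

namespace SQ



theorem Y_card (A : Finset ℕ) (hA : Sid A) (N c : ℕ) (hN : ∀ a ∈ A, a < N) (hc : N ≤ c)
    (hne : A.Nonempty) : A.card * A.card + 1 ≤ (Y A c).card + A.card := by
  classical
  obtain ⟨a0, ha0⟩ := hne
  have hinj : Set.InjOn (fun q : ℕ × ℕ => c + 2 + q.1 - q.2) (A.offDiag : Set (ℕ × ℕ)) := by
    rintro ⟨a, b⟩ h1 ⟨a', b'⟩ h2 h
    rw [Finset.mem_coe, Finset.mem_offDiag] at h1 h2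
    obtain ⟨h1a, h1b, h1n⟩ := h1
    obtain ⟨h2a, h2b, h2n⟩ := h2
    simp only at h h1a h1b h1n h2a h2b h2n
    have hb := hN b h1b
    have hb' := hN b' h2b
    have hs : a + b' = a' + b := by omega
    rcases hA a h1a b' h2b a' h2a b h1b hs with ⟨r1, r2⟩ | ⟨r1, r2⟩
    · rw [r1, r2]
    · exact absurd r1 h1n
  have hnot : c + 2 ∉ A.offDiag.image (fun q : ℕ × ℕ => c + 2 + q.1 - q.2) := by
    rw [Finset.mem_image]
    rintro ⟨⟨a, b⟩, h1, h⟩
    rw [Finset.mem_offDiag] at h1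
    obtain ⟨h1a, h1b, h1n⟩ := h1
    simp only at h h1a h1b h1n
    have hb := hN b h1b
    omega
  have hsub : insert (c + 2) (A.offDiag.image (fun q : ℕ × ℕ => c + 2 + q.1 - q.2)) ⊆ Y A c := by
    intro x hx
    rw [Finset.mem_insert] at hx
    unfold Y
    rw [Finset.mem_image]
    rcases hx with rfl | hx
    · exact ⟨(a0, a0), Finset.mem_product.2 ⟨ha0, ha0⟩, by simp only; omega⟩
    · rw [Finset.mem_image] at hx
      obtain ⟨q, hq, rfl⟩ := hx
      rw [Finset.mem_offDiag] at hq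
      exact ⟨q, Finset.mem_product.2 ⟨hq.1, hq.2.1⟩, rfl⟩
  have hcard := Finset.card_le_card hsub
  rw [Finset.card_insert_of_notMem hnot, Finset.card_image_of_injOn hinj, Finset.offDiag_card] at hcard
  have hk : A.card ≤ A.card * A.card := Nat.le_mul_self _
  omega

end SQ
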