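import Pool.Agent.Helper353.SQ.Defs

set_option autoImplicit false

open Finset
open scoped Pointwise

namespace SQ



theorem Z_card (A : Finset ℕ) (N c : ℕ) (hN : ∀ a ∈ A, a < N) (hc : N ≤ c) :
    (Z A c).card = (X A).card := by
  have h : Z A c = (X A).image (fun m => 2 * c + 4 - m) := by
    unfold Z X
    rw [Finset.image_image]
    refine Finset.image_congr fun q _ => ?_
    show 2 * c + 2 - (q.1 + q.2) = 2 * c + 4 - (q.1 + q.2 + 2)
    omega
  have hX : ∀ m ∈ X A, m ≤ 2 * c := by
    intro m hm
    unfold X at hm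
    obtain ⟨q, hq, rfl⟩ := Finset.mem_image.1 hm
    obtain ⟨h1, h2⟩ := Finset.mem_product.1 hq
    have := hN _ h1
    have := hN _ h2
    omega
  rw [h]
  refine Finset.card_image_of_injOn ?_
  intro m hm m' hm' he
  have h1 := hX m hm
  have h2 := hX m' hm'
  have h3 : 2 * c + 4 - m = 2 * c + 4 - m' := he
  omega

end SQ
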