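import Pool.Agent.Helper353.SQ.Defs

set_option autoImplicit false

open Finset
open scoped Pointwise

namespace SQ



theorem lost (A : Finset ℕ) (n c : ℕ) :
    2 * ((Z A c).filter fun z => n < z).card ≤ P A (2 * c + 2 - n) + A.card := by
  classical
  unfold P
  obtain ⟨Zf, hZf⟩ : ∃ Zf, Zf = (Z A c).filter fun z => n < z := ⟨_, rfl⟩
  obtain ⟨S, hS⟩ : ∃ S, S = (A ×ˢ A).filter fun q => q.1 + q.2 < 2 * c + 2 - n := ⟨_, rfl⟩
  rw [← hZf, ← hS]
  have h1 : ∀ q ∈ S, (fun q : ℕ × ℕ => 2 * c + 2 - (q.1 + q.2)) q ∈ Zf := by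
    intro q hq
    rw [hS, mem_filter] at hq
    rw [hZf, mem_filter]
    refine ⟨mem_image.2 ⟨q, hq.1, rfl⟩, ?_⟩
    have := hq.2
    show n < 2 * c + 2 - (q.1 + q.2)
    omega
  have h2 := card_eq_sum_card_fiberwise h1
  have h3 : ∀ a ∈ A.filter (fun a => 2 * c + 2 - (a + a) ∈ Zf),
      (fun a : ℕ => 2 * c + 2 - (a + a)) a ∈ Zf := by
    intro a ha
    exact (mem_filter.1 ha).2
  have h4 := card_eq_sum_card_fiberwise h3
  have h5 : (A.filter (fun a => 2 * c + 2 - (a + a) ∈ Zf)).card ≤ A.card :=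
    card_le_card (filter_subset _ _)
  have h6 : ∑ z ∈ Zf, 2 ≤ ∑ z ∈ Zf, ((S.filter (fun q : ℕ × ℕ => 2 * c + 2 - (q.1 + q.2) = z)).card +
      ((A.filter (fun a => 2 * c + 2 - (a + a) ∈ Zf)).filter
        (fun a => 2 * c + 2 - (a + a) = z)).card) := by
    refine sum_le_sum (fun z hz => ?_)
    have hz' := hz
    rw [hZf, mem_filter] at hz'
    obtain ⟨hz1, hz2⟩ := hz'
    obtain ⟨q, hq, hqz⟩ := mem_image.1 hz1
    obtain ⟨a, b⟩ := q
    obtain ⟨ha, hb⟩ := mem_product.1 hq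
    simp only at ha hb hqz
    by_cases hab : a = b
    · subst hab
      have hA : a ∈ (A.filter (fun a => 2 * c + 2 - (a + a) ∈ Zf)).filter
        (fun a => 2 * c + 2 - (a + a) = z) := by
        rw [mem_filter, mem_filter]
        exact ⟨⟨ha, by rw [hqz]; exact hz⟩, hqz⟩
      have hB : (a, a) ∈ S.filter (fun q : ℕ × ℕ => 2 * c + 2 - (q.1 + q.2) = z) := by
        rw [mem_filter, hS, mem_filter]
        refine ⟨⟨hq, ?_⟩, hqz⟩
        show a + a < 2 * c + 2 - n
        omega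
      have e1 := card_pos.2 ⟨_, hA⟩
      have e2 := card_pos.2 ⟨_, hB⟩
      omega
    · have hB : ({(a, b), (b, a)} : Finset (ℕ × ℕ)) ⊆
          S.filter (fun q : ℕ × ℕ => 2 * c + 2 - (q.1 + q.2) = z) := by
        intro q hq'
        rw [mem_insert, mem_singleton] at hq'
        rw [mem_filter, hS, mem_filter]
        rcases hq' with rfl | rfl
        · refine ⟨⟨hq, ?_⟩, hqz⟩
          show a + b < 2 * c + 2 - n
          omega
        · refine ⟨⟨mem_product.2 ⟨hb, ha⟩, ?_⟩, ?_⟩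
          · show b + a < 2 * c + 2 - n
            omega
          · show 2 * c + 2 - (b + a) = z
            rw [add_comm b a]; exact hqz
      have e1 := card_le_card hB
      rw [card_pair (by intro h; exact hab (Prod.mk.inj h).1)] at e1
      omega
  rw [sum_const, smul_eq_mul, sum_add_distrib, ← h2, ← h4] at h6
  omega

end SQ
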