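import Pool.Agent.Helper353.SQ.Defs

set_option autoImplicit false

open Finset
open scoped Pointwise

namespace SQ



theorem sub_sum (A : Finset ℕ) (N c : ℕ) (hN : ∀ a ∈ A, a < N) (hc : N ≤ c) :
    X A ∪ (Y A c) ∪ (Z A c) ⊆ E A c + E A c := by
  have h1 : ∀ a ∈ A, a + 1 ∈ E A c := by
    intro a ha
    exact Finset.mem_union_left _ (Finset.mem_image_of_mem (fun a => a + 1) ha)
  have h2 : ∀ a ∈ A, c + 1 - a ∈ E A c := by
    intro a ha
    exact Finset.mem_union_right _ (Finset.mem_image_of_mem (fun a => c + 1 - a) ha)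
  intro x hx
  rw [Finset.mem_union, Finset.mem_union] at hx
  rcases hx with (hx | hx) | hx
  · unfold X at hx
    rw [Finset.mem_image] at hx
    obtain ⟨⟨a, b⟩, hab, rfl⟩ := hx
    rw [Finset.mem_product] at hab
    have e : a + b + 2 = (a + 1) + (b + 1) := by omega
    show a + b + 2 ∈ _
    rw [e]
    exact Finset.add_mem_add (h1 a hab.1) (h1 b hab.2)
  · unfold Y at hx
    rw [Finset.mem_image] at hx
    obtain ⟨⟨a, b⟩, hab, rfl⟩ := hx
    rw [Finset.mem_product] at hab
    have hb := hN b hab.2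
    have e : c + 2 + a - b = (a + 1) + (c + 1 - b) := by omega
    show c + 2 + a - b ∈ _
    rw [e]
    exact Finset.add_mem_add (h1 a hab.1) (h2 b hab.2)
  · unfold Z at hx
    rw [Finset.mem_image] at hx
    obtain ⟨⟨a, b⟩, hab, rfl⟩ := hx
    rw [Finset.mem_product] at hab
    have ha := hN a hab.1
    have hb := hN b hab.2
    have e : 2 * c + 2 - (a + b) = (c + 1 - a) + (c + 1 - b) := by
      omega
    show 2 * c + 2 - (a + b) ∈ _
    rw [e]
    exact Finset.add_mem_add (h2 a hab.1) (h2 b hab.2)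

end SQ
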