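import Pool.Agent.Helper353.SQ.Defs
import Pool.Agent.Helper353.SQ.P_X_card
import Pool.Agent.Helper353.SQ.P_Z_card
import Pool.Agent.Helper353.SQ.P_Y_card
import Pool.Agent.Helper353.SQ.P_XY_le
import Pool.Agent.Helper353.SQ.P_YZ_le
import Pool.Agent.Helper353.SQ.P_XZ_disj
import Pool.Agent.Helper353.SQ.P_lost
import Pool.Agent.Helper353.SQ.P_sub_sum

set_option autoImplicit false

open Finset
open scoped Pointwise

namespace SQ



theorem main_count (A : Finset ℕ) (hA : Sid A) (N c n : ℕ) (hN : ∀ a ∈ A, a < N)
    (hc : 2 * N ≤ c) (hn : c + N + 2 ≤ n) (hne : A.Nonempty) :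
    4 * A.card ^ 2 + 2 ≤ 2 * ((E A c + E A c).filter (· ≤ n)).card + 2 * Q A c
      + P A (2 * c + 2 - n) + 3 * A.card := by
  have hc' : N ≤ c := by omega
  have h1 := X_card A hA
  have h2 := Z_card A N c hN hc'
  have h3 := Y_card A hA N c hN hc' hne
  have h4 := XY_le A hA N c hN hc'
  have h5 := YZ_le A N c hN hc'
  have h6 := XZ_disj A N c hN hc
  have h7 := lost A n c
  have h8 := sub_sum A N c hN hc'
  have hsub : (X A ∪ Y A c) ∪ (Z A c).filter (fun z => ¬ n < z) ⊆
      (E A c + E A c).filter (· ≤ n) := by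
    intro z hz
    rw [Finset.mem_filter]
    rcases Finset.mem_union.1 hz with hz | hz
    · refine ⟨h8 (Finset.mem_union_left _ hz), ?_⟩
      rcases Finset.mem_union.1 hz with hz | hz
      · unfold X at hz
        obtain ⟨q, hq, rfl⟩ := Finset.mem_image.1 hz
        rw [Finset.mem_product] at hq
        have a1 := hN _ hq.1
        have a2 := hN _ hq.2
        omega
      · unfold Y at hz
        obtain ⟨q, hq, rfl⟩ := Finset.mem_image.1 hz
        rw [Finset.mem_product] at hq
        have a1 := hN _ hq.1
        have a2 := hN _ hq.2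
        omega
    · rw [Finset.mem_filter] at hz
      exact ⟨h8 (Finset.mem_union_right _ hz.1), by omega⟩
  have hle := Finset.card_le_card hsub
  have hu1 := Finset.card_union_add_card_inter (X A) (Y A c)
  have hu2 := Finset.card_union_add_card_inter (X A ∪ Y A c) ((Z A c).filter (fun z => ¬ n < z))
  have hsub2 : (X A ∪ Y A c) ∩ (Z A c).filter (fun z => ¬ n < z) ⊆ Y A c ∩ Z A c := by
    intro z hz
    rw [Finset.mem_inter, Finset.mem_union, Finset.mem_filter] at hz
    rw [Finset.mem_inter]
    rcases hz.1 with h | h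
    · exact absurd hz.2.1 (Finset.disjoint_left.1 h6 h)
    · exact ⟨h, hz.2.1⟩
  have hle2 := Finset.card_le_card hsub2
  have hfl := Finset.card_filter_add_card_filter_not (s := Z A c) (fun z => n < z)
  have e1 : A.card * (A.card + 1) = A.card * A.card + A.card := by ring
  have e2 : A.card ^ 2 = A.card * A.card := by ring
  rw [e1] at h1
  rw [e2]
  generalize A.card * A.card = kk at *
  omega

end SQ
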