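import Pool.Agent.Helper353.SQ.Defs

set_option autoImplicit false

open Finset
open scoped Pointwise

namespace SQ



theorem num_P (k P : ℝ) (hk : 0 ≤ k)
    (h : P ≤ (20000200000 : ℝ) * (20000200000 + 1) / 2 *
      ((1 + 1 / 100000) * k / (6 * 10000000000)) ^ 2) :
    P ≤ 5556 / 100000 * k ^ 2 := by
  have h1 : (20000200000 : ℝ) * (20000200000 + 1) / 2 *
      ((1 + 1 / 100000) * k / (6 * 10000000000)) ^ 2 =
      ((20000200000 : ℝ) * (20000200000 + 1) / 2 *
      ((1 + 1 / 100000) / (6 * 10000000000)) ^ 2) * k ^ 2 := by ring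
  have h2 : ((20000200000 : ℝ) * (20000200000 + 1) / 2 *
      ((1 + 1 / 100000) / (6 * 10000000000)) ^ 2) ≤ 5556 / 100000 := by norm_num
  rw [h1] at h
  exact h.trans (mul_le_mul_of_nonneg_right h2 (sq_nonneg k))

end SQ
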