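import Pool.Agent.Helper353.SQ.Defs

set_option autoImplicit false

open Finset
open scoped Pointwise

namespace SQ



theorem num_Q (k N w q : ℝ) (hk : 10 ^ 6 ≤ k) (hN : N = k ^ 2 + k) (hw : N / 600000 - 1 ≤ w)
    (hq : 0 ≤ q)
    (h : w * q ≤ (100000 + 4) * (5 * 10000000000 + 2) ^ 3 / 6 *
      ((1 + 1 / 100000) * k / (6 * 10000000000)) ^ 4) :
    q ≤ 9647 / 100000 * k ^ 2 := by
  by_contra hcon
  push Not at hcon
  have hk0 : (0 : ℝ) ≤ k := by linarith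
  have hB : (10 : ℝ) ^ 12 ≤ k ^ 2 := by nlinarith
  have hA : (10 : ℝ) ^ 12 * k ^ 2 ≤ k ^ 4 := by
    have : k ^ 4 = k ^ 2 * k ^ 2 := by ring
    rw [this]
    exact mul_le_mul_of_nonneg_right hB (by positivity)
  have hw2 : k ^ 2 / 600000 - 1 ≤ w := by
    rw [hN] at hw
    linarith
  have hpos : 0 ≤ k ^ 2 / 600000 - 1 := by linarith
  have h1 : (k ^ 2 / 600000 - 1) * (9647 / 100000 * k ^ 2) ≤ w * q :=
    mul_le_mul hw2 hcon.le (by positivity) (hpos.trans hw2)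
  have h2 : (100000 + 4) * (5 * 10000000000 + 2) ^ 3 / 6 *
      ((1 + 1 / 100000) * k / (6 * 10000000000)) ^ 4 =
      ((100000 + 4) * (5 * 10000000000 + 2) ^ 3 / 6 *
      ((1 + 1 / 100000) / (6 * 10000000000)) ^ 4) * k ^ 4 := by ring
  have h3 : ((100000 + 4) * (5 * 10000000000 + 2) ^ 3 / 6 *
      ((1 + 1 / 100000) / (6 * 10000000000)) ^ 4 : ℝ) ≤ 16077 / 10 ^ 11 := by norm_num
  have h4 : ((100000 + 4) * (5 * 10000000000 + 2) ^ 3 / 6 *
      ((1 + 1 / 100000) / (6 * 10000000000)) ^ 4) * k ^ 4 ≤ 16077 / 10 ^ 11 * k ^ 4 :=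
    mul_le_mul_of_nonneg_right h3 (by positivity)
  rw [h2] at h
  have h5 : (k ^ 2 / 600000 - 1) * (9647 / 100000 * k ^ 2) =
      9647 / 60000000000 * k ^ 4 - 9647 / 100000 * k ^ 2 := by ring
  rw [h5] at h1
  have h6 := h1.trans (h.trans h4)
  linarith

end SQ
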