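import Pool.Agent.Helper353.SQ.Defs
import Pool.Agent.Helper353.SQ.P_prime_ax

set_option autoImplicit false

open Finset
open scoped Pointwise

namespace SQ



theorem prime_choice (p0 : ℕ) :
    ∀ᶠ n : ℕ in Filter.atTop, ∃ p : ℕ, p.Prime ∧ p0 ≤ p ∧ 4 * (p * (p - 1)) + 4 ≤ n ∧
      (n : ℝ) ≤ 4 * (1 + 1 / 10000) * (((p - 1 : ℕ) : ℝ)) ^ 2 := by
  have hx : Filter.Tendsto (fun n : ℕ => (1 - 2 / 100000 : ℝ) / 2 * Real.sqrt n) Filter.atTop
      Filter.atTop :=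
    (Real.tendsto_sqrt_atTop.comp tendsto_natCast_atTop_atTop).const_mul_atTop (by norm_num)
  filter_upwards [hx.eventually (prime_ax (1 / 100000) (by norm_num)),
    hx.eventually (Filter.eventually_ge_atTop (max (p0 : ℝ) 100000))] with n h1 h2
  obtain ⟨p, hp, hp1, hp2⟩ := h1
  have hs : 0 ≤ Real.sqrt n := Real.sqrt_nonneg _
  have hss : Real.sqrt n * Real.sqrt n = n := Real.mul_self_sqrt (Nat.cast_nonneg n)
  obtain ⟨y, hy⟩ : ∃ y, y = Real.sqrt n := ⟨_, rfl⟩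
  rw [← hy] at hs hss hp1 hp2 h2
  have h3 : (p0 : ℝ) ≤ (1 - 2 / 100000 : ℝ) / 2 * y := (le_max_left _ _).trans h2
  have h4 : (100000 : ℝ) ≤ (1 - 2 / 100000 : ℝ) / 2 * y := (le_max_right _ _).trans h2
  refine ⟨p, hp, ?_, ?_, ?_⟩
  · have : (p0 : ℝ) ≤ p := by linarith
    exact_mod_cast this
  · obtain ⟨k, rfl⟩ : ∃ k, p = k + 1 := ⟨p - 1, by have := hp.one_lt; omega⟩
    have e : k + 1 - 1 = k := by omega
    rw [e]
    push_cast at hp1 hp2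
    have h5 : (k : ℝ) + 1 ≤ y / 2 := by nlinarith
    have h6 : (0 : ℝ) ≤ k := Nat.cast_nonneg k
    have h7 : (4 * ((k + 1) * k) + 4 : ℝ) ≤ n := by
      rw [← hss]
      nlinarith
    exact_mod_cast h7
  · obtain ⟨k, rfl⟩ : ∃ k, p = k + 1 := ⟨p - 1, by have := hp.one_lt; omega⟩
    have e : k + 1 - 1 = k := by omega
    rw [e]
    push_cast at hp1 hp2
    have h5 : (1 - 1 / 100000 : ℝ) * ((1 - 2 / 100000 : ℝ) / 2 * y) ≤ k := by linarith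
    have h6 : (0 : ℝ) ≤ (1 - 1 / 100000 : ℝ) * ((1 - 2 / 100000 : ℝ) / 2 * y) := by positivity
    have h7 := pow_le_pow_left₀ h6 h5 2
    have h8 : ((1 - 1 / 100000 : ℝ) * ((1 - 2 / 100000 : ℝ) / 2 * y)) ^ 2 =
        ((1 - 1 / 100000) * ((1 - 2 / 100000) / 2)) ^ 2 * n := by
      rw [← hss]
      ring
    rw [h8] at h7
    have h9 : (0 : ℝ) ≤ n := Nat.cast_nonneg n
    have h10 : (1 : ℝ) ≤ 4 * (1 + 1 / 10000) * ((1 - 1 / 100000) * ((1 - 2 / 100000) / 2)) ^ 2 := by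
      norm_num
    calc (n : ℝ) = 1 * n := (one_mul _).symm
      _ ≤ (4 * (1 + 1 / 10000) * ((1 - 1 / 100000) * ((1 - 2 / 100000) / 2)) ^ 2) * n :=
        mul_le_mul_of_nonneg_right h10 h9
      _ = 4 * (1 + 1 / 10000) * (((1 - 1 / 100000) * ((1 - 2 / 100000) / 2)) ^ 2 * n) := by ring
      _ ≤ 4 * (1 + 1 / 10000) * (k : ℝ) ^ 2 := mul_le_mul_of_nonneg_left h7 (by norm_num)

end SQ
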