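import Pool.Agent.Helper353.SQ.P_dense
import Pool.Agent.Helper353.SQ.P_avg
import Pool.Agent.Helper353.SQ.P_G_le
import Pool.Agent.Helper353.SQ.P_P_le
import Pool.Agent.Helper353.SQ.P_main_count
import Pool.Agent.Helper353.SQ.P_f_ge
import Pool.Agent.Helper353.SQ.P_prime_choice
import Pool.Agent.Helper353.SQ.P_num_Q
import Pool.Agent.Helper353.SQ.P_num_P

set_option autoImplicit false

open Finset
open scoped Pointwise

namespace SQ

theorem k_bounds (k N w n c0 c : ℕ) (hN : N = k ^ 2 + k) (hw : w = N / 600000)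
    (hc0 : c0 = (13 * N + 5) / 6) (hc1 : c0 ≤ c) (hc2 : c < c0 + w) (hn : 4 * N + 4 ≤ n)
    (_hk : 10 ^ 12 ≤ k) :
    2 * N ≤ c ∧ c + N + 2 ≤ n ∧ 6 * 10000000000 * (2 * c + 2 - n) ≤ 20000200000 * N := by
  have hNk : k ≤ N := by rw [hN]; exact Nat.le_add_left _ _
  have hw2 : 600000 * w ≤ N := by rw [hw]; exact Nat.mul_div_le _ _
  refine ⟨by omega, by omega, by omega⟩

theorem main : ∀ᶠ n : ℕ in Filter.atTop, (15 / 32 : ℝ) * n ≤ f n := by
  obtain ⟨p1, hp1⟩ := dense (6 * 10000000000) (by norm_num) (1 / 100000) (by norm_num)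
  filter_upwards [prime_choice (p1 + 10 ^ 12 + 1)] with n hn
  obtain ⟨p, hp, hpp, hn1, hn2⟩ := hn
  obtain ⟨A, hA1, hA2, hA3, hA4⟩ := hp1 p hp (by omega)
  set k : ℕ := p - 1 with hk
  set N : ℕ := p * k with hN
  have hpk : p = k + 1 := by omega
  have hNk : N = k ^ 2 + k := by rw [hN, hpk]; ring
  have hk12 : 10 ^ 12 ≤ k := by omega
  have hkN : k ≤ N := by rw [hNk]; exact Nat.le_add_left _ _
  set w : ℕ := N / 600000 with hw
  set c0 : ℕ := (13 * N + 5) / 6 with hc0
  have hw0 : 0 < w := by omega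
  have hw2 : 600000 * w ≤ N := by rw [hw]; exact Nat.mul_div_le _ _
  obtain ⟨c, hc1, hc2, hc3⟩ := avg A c0 w hw0
  obtain ⟨h1, h2, h3⟩ := k_bounds k N w n c0 c hNk hw hc0 hc1 hc2 hn1 hk12
  have hN0 : 0 < N := by omega
  set B : ℝ := (1 + 1 / 100000) * (k : ℝ) / (6 * 10000000000) with hB
  have hB' : ∀ j, (cnt N (6 * 10000000000) A j : ℝ) ≤ B := by
    intro j
    have := hA4 j
    have h9 : (6 : ℝ) * 10000000000 = 60000000000 := by norm_num
    rw [hB, h9]
    push_cast at this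
    exact this
  have hG := G_le N 10000000000 100000 c0 w hN0 (by norm_num) A hA1 B hB'
    (by omega) (by omega) (by omega) (by omega)
  have hP := P_le N (6 * 10000000000) 20000200000 (2 * c + 2 - n) hN0 (by norm_num) A B hB' h3
  have hne : A.Nonempty := by
    rw [← Finset.card_pos, hA2]; omega
  have hmain := main_count A hA3 N c n hA1 h1 h2 hne
  have hsub : E A c ⊆ Finset.Icc 1 n := by
    intro x hx
    unfold E at hx
    rw [Finset.mem_union, Finset.mem_image, Finset.mem_image] at hx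
    rw [Finset.mem_Icc]
    rcases hx with ⟨a, ha, rfl⟩ | ⟨a, ha, rfl⟩
    · have := hA1 a ha
      omega
    · have := hA1 a ha
      omega
  have hcard : (E A c).card ≤ Nat.sqrt n := by
    have h5 : (E A c).card ≤ 2 * k := by
      unfold E
      refine (Finset.card_union_le _ _).trans ?_
      have e1 := Finset.card_image_le (s := A) (f := fun a => a + 1)
      have e2 := Finset.card_image_le (s := A) (f := fun a => c + 1 - a)
      omega
    refine h5.trans ?_
    rw [Nat.le_sqrt]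
    nlinarith
  have hf := f_ge n (E A c) hsub hcard
  -- real inequalities
  have hkR : (10 : ℝ) ^ 6 ≤ (k : ℝ) := by
    have : (10 : ℝ) ^ 12 ≤ (k : ℝ) := by exact_mod_cast hk12
    linarith [show (10 : ℝ) ^ 6 ≤ 10 ^ 12 by norm_num]
  have hNR : (N : ℝ) = (k : ℝ) ^ 2 + k := by rw [hNk]; push_cast; ring
  have hwR : (N : ℝ) / 600000 - 1 ≤ w := by
    have h6 : N < 600000 * w + 600000 := by omega
    have h7 : (N : ℝ) < 600000 * w + 600000 := by exact_mod_cast h6
    linarith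
  have hQ : (Q A c : ℝ) ≤ 9647 / 100000 * (k : ℝ) ^ 2 := by
    refine num_Q k N w (Q A c) hkR hNR hwR (Nat.cast_nonneg _) ?_
    have h8 : ((w * Q A c : ℕ) : ℝ) ≤ (G A c0 w : ℝ) := by exact_mod_cast hc3
    rw [hB] at hG
    push_cast at h8 hG
    exact h8.trans hG
  have hP2 : (P A (2 * c + 2 - n) : ℝ) ≤ 5556 / 100000 * (k : ℝ) ^ 2 := by
    refine num_P k _ (Nat.cast_nonneg _) ?_
    rw [hB] at hP
    push_cast at hP
    exact hP
  have hm : (4 : ℝ) * (k : ℝ) ^ 2 + 2 ≤ 2 * (((E A c + E A c).filter (· ≤ n)).card : ℝ)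
      + 2 * (Q A c : ℝ) + (P A (2 * c + 2 - n) : ℝ) + 3 * (k : ℝ) := by
    rw [hA2] at hmain
    exact_mod_cast hmain
  have hfR : (((E A c + E A c).filter (· ≤ n)).card : ℝ) ≤ f n := by exact_mod_cast hf
  have hn3 : (n : ℝ) ≤ 4 * (1 + 1 / 10000) * (k : ℝ) ^ 2 := hn2
  nlinarith

end SQ
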